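import Pool.Agent.N935.Kik.Asy
import Pool.Agent.N935.Kik.NoGap

set_option autoImplicit false

/-!
# The spectral threshold of the Kikuchi matrix

For every even `r ≥ 4` the rescaled spectral threshold of the Kikuchi matrix at level `ℓ` is at most
`C_r ℓ^(-(r-2)/4)`, hence tends to `0` as `ℓ → ∞`; for `r = 2` it is at least `1` for every `ℓ ≥ 1`.
-/

open Matrix MeasureTheory ProbabilityTheory Filter Topology

namespace Pool.Agent.Results.MP_d47e08_pr.KikuchiThreshold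

/-- The Kikuchi matrix: rows and columns are the `ℓ`-subsets of `[n]`, the entry is
`lam + Z_(I Δ J)` if `|I Δ J| = r` and `0` otherwise. -/
def kikuchi (n ℓ r : ℕ) (lam : ℝ) (Z : Finset (Fin n) → ℝ) :
    Matrix {K : Finset (Fin n) // K.card = ℓ} {K : Finset (Fin n) // K.card = ℓ} ℝ :=
  Matrix.of fun I J => if (symmDiff I.1 J.1).card = r then lam + Z (symmDiff I.1 J.1) else 0

/-- The expected top eigenvalue (maximum of the quadratic form over unit vectors) of the Kikuchi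
matrix, the `Z_S` being independent standard Gaussians. -/
noncomputable def meanTop (n ℓ r : ℕ) (lam : ℝ) : ℝ :=
  ∫ (Z : Finset (Fin n) → ℝ),
      sSup {t : ℝ | ∃ v : {K : Finset (Fin n) // K.card = ℓ} → ℝ,
        dotProduct v v = 1 ∧ t = dotProduct v (Matrix.mulVec (kikuchi n ℓ r lam Z) v)}
    ∂(Measure.pi fun _ : Finset (Fin n) => gaussianReal 0 1)

/-- `ρ_{r,ℓ}(μ)`: lower limit as `n → ∞` of the ratio of the expected top eigenvalues at signal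
strengths `μ n^(-r/4)` and `0`. -/
noncomputable def rho (r ℓ : ℕ) (μ : ℝ) : EReal :=
  liminf (fun n : ℕ =>
    ((meanTop n ℓ r (μ * (n : ℝ) ^ (-(r : ℝ) / 4)) / meanTop n ℓ r 0 : ℝ) : EReal)) atTop

/-- The rescaled spectral threshold `μ♮_{r,ℓ} = inf {μ ≥ 0 : ρ_{r,ℓ}(μ) > 1}` in `[0,∞]`. -/
noncomputable def threshold (r ℓ : ℕ) : EReal :=
  sInf {m : EReal | ∃ μ : ℝ, 0 ≤ μ ∧ 1 < rho r ℓ μ ∧ m = (μ : EReal)}

open Pool.Agent.N935.Kik in
lemma meanTop_eq (n ℓ r : ℕ) (lam : ℝ) :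
    meanTop n ℓ r lam = ∫ Z, X n ℓ r (fun S => lam + Z S)
      ∂(Pool.Agent.H320R2.LD.gam (Finset (Fin n))) := by
  unfold meanTop kikuchi
  have e : ∀ Z : Finset (Fin n) → ℝ, sSup {t : ℝ | ∃ v : {K : Finset (Fin n) // K.card = ℓ} → ℝ,
      dotProduct v v = 1 ∧ t = dotProduct v (Matrix.mulVec
        (Matrix.of fun I J : {K : Finset (Fin n) // K.card = ℓ} =>
          if (symmDiff I.1 J.1).card = r then lam + Z (symmDiff I.1 J.1) else 0) v)} =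
      X n ℓ r (fun S => lam + Z S) :=
    fun Z => X_eq n ℓ r (fun S => lam + Z S)
  simp_rw [e]
  rfl

open Pool.Agent.N935.Kik in
lemma meanTop_zero (n ℓ r : ℕ) :
    meanTop n ℓ r 0 = ∫ Z, X n ℓ r Z ∂(Pool.Agent.H320R2.LD.gam (Finset (Fin n))) := by
  rw [meanTop_eq]
  simp only [zero_add]

lemma threshold_nonneg (r ℓ : ℕ) : 0 ≤ threshold r ℓ := by
  unfold threshold
  refine le_sInf ?_
  rintro m ⟨μ, hμ, _, rfl⟩
  exact_mod_cast hμ

open Pool.Agent.N935.Kik in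
lemma threshold_le (k : ℕ) (hk : 1 ≤ k) (ℓ : ℕ) (hℓ : k ≤ ℓ) :
    threshold (2 * k) ℓ ≤ ((Ck k * (ℓ:ℝ) ^ (-(((k:ℝ) - 1) / 2)) : ℝ) : EReal) := by
  set μ : ℝ := Ck k * (ℓ:ℝ) ^ (-(((k:ℝ) - 1) / 2)) with hμ
  have hμ0 : 0 ≤ μ := by have := Ck_pos k hk; positivity
  unfold threshold
  refine sInf_le ⟨μ, hμ0, ?_, rfl⟩
  have h := gap k hk ℓ hℓ μ le_rfl
  have h2 : (2 : EReal) ≤ rho (2 * k) ℓ μ := by
    unfold rho
    refine le_liminf_of_le (by isBoundedDefault) ?_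
    filter_upwards [h] with n hn
    rw [meanTop_eq, meanTop_zero]
    have e2 : (2 : EReal) = ((2:ℝ) : EReal) := rfl
    rw [e2]
    exact EReal.coe_le_coe_iff.mpr hn
  refine lt_of_lt_of_le ?_ h2
  exact_mod_cast one_lt_two

open Pool.Agent.N935.Kik in
lemma one_le_threshold_two (ℓ : ℕ) (hℓ : 1 ≤ ℓ) : 1 ≤ threshold 2 ℓ := by
  unfold threshold
  refine le_sInf ?_
  rintro m ⟨μ, hμ, hrho, rfl⟩
  by_contra hcon
  push Not at hcon
  have hμ1 : μ < 1 := by exact_mod_cast hcon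
  -- rho ≤ 1 + ε for all ε
  have hle : ∀ ε : ℝ, 0 < ε → rho 2 ℓ μ ≤ ((1 + ε : ℝ) : EReal) := by
    intro ε hε
    unfold rho
    refine liminf_le_of_frequently_le' ?_
    refine Eventually.frequently ?_
    filter_upwards [no_gap_two' ℓ hℓ μ hμ hμ1 ε hε] with n hn
    rw [meanTop_eq, meanTop_zero]
    exact_mod_cast hn.le
  obtain ⟨x, hx1, hx2⟩ := EReal.lt_iff_exists_real_btwn.mp hrho
  have hx1' : 1 < x := by exact_mod_cast hx1
  have h3 := hle (x - 1) (by linarith)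
  have e : (1 + (x - 1) : ℝ) = x := by ring
  rw [e] at h3
  exact absurd hx2 (not_lt.mpr h3)

/-- For every even `r ≥ 4` there is a constant `C` with `μ♮_{r,ℓ} ≤ C ℓ^(-(r-2)/4)` for all
`ℓ ≥ r/2`, and in particular `μ♮_{r,ℓ} → 0` as `ℓ → ∞`; on the other hand `μ♮_{2,ℓ} ≥ 1` for every
`ℓ ≥ 1`. -/
theorem result :
    (∀ r : ℕ, 4 ≤ r → Even r →
      (∃ C : ℝ, 0 < C ∧ ∀ ℓ : ℕ, r / 2 ≤ ℓ →
        threshold r ℓ ≤ ((C * (ℓ : ℝ) ^ (-((r : ℝ) - 2) / 4) : ℝ) : EReal)) ∧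
      Tendsto (fun ℓ : ℕ => threshold r ℓ) atTop (𝓝 0)) ∧
    (∀ ℓ : ℕ, 1 ≤ ℓ → 1 ≤ threshold 2 ℓ) := by
  refine ⟨?_, one_le_threshold_two⟩
  intro r hr hev
  obtain ⟨k, rfl⟩ := hev.two_dvd
  have hk : 2 ≤ k := by omega
  have hexp : (-(((k:ℝ) - 1) / 2)) = (-(((2 * k : ℕ) : ℝ) - 2) / 4) := by push_cast; ring
  have hbound : ∀ ℓ : ℕ, k ≤ ℓ → threshold (2 * k) ℓ ≤
      ((Pool.Agent.N935.Kik.Ck k * (ℓ : ℝ) ^ (-(((2 * k : ℕ) : ℝ) - 2) / 4) : ℝ) : EReal) := by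
    intro ℓ hℓ
    rw [← hexp]
    exact threshold_le k (by omega) ℓ hℓ
  refine ⟨⟨Pool.Agent.N935.Kik.Ck k, Pool.Agent.N935.Kik.Ck_pos k (by omega), fun ℓ hℓ =>
    hbound ℓ (by omega)⟩, ?_⟩
  have hlim : Tendsto (fun ℓ : ℕ => ((Pool.Agent.N935.Kik.Ck k *
      (ℓ : ℝ) ^ (-(((2 * k : ℕ) : ℝ) - 2) / 4) : ℝ) : EReal)) atTop (𝓝 0) := by
    have h1 : Tendsto (fun ℓ : ℕ => (ℓ : ℝ) ^ (-((((2 * k : ℕ) : ℝ) - 2) / 4))) atTop (𝓝 0) := by
      refine (tendsto_rpow_neg_atTop ?_).comp (tendsto_natCast_atTop_atTop (R := ℝ))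
      have : (2:ℝ) ≤ k := by exact_mod_cast hk
      push_cast
      linarith
    have h2 := h1.const_mul (Pool.Agent.N935.Kik.Ck k)
    rw [mul_zero] at h2
    have h3 : Tendsto (fun ℓ : ℕ => Pool.Agent.N935.Kik.Ck k *
        (ℓ : ℝ) ^ (-(((2 * k : ℕ) : ℝ) - 2) / 4)) atTop (𝓝 0) := by
      refine h2.congr fun ℓ => ?_
      congr 2
      ring
    have e0 : (0 : EReal) = ((0:ℝ) : EReal) := rfl
    rw [e0]
    exact EReal.tendsto_coe.mpr h3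
  refine tendsto_of_tendsto_of_tendsto_of_le_of_le' tendsto_const_nhds hlim ?_ ?_
  · exact Eventually.of_forall fun ℓ => threshold_nonneg _ _
  · filter_upwards [eventually_ge_atTop k] with ℓ hℓ
    exact hbound ℓ hℓ

end Pool.Agent.Results.MP_d47e08_pr.KikuchiThreshold
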